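import Pool.Agent.Y658.KA.Lim
import Pool.Agent.Y547.KS.Zbog
import Pool.Agent.Y809.OG.Split
import Pool.Agent.Y833.OG.Hat

/-!
Covers without a one-parameter group with limits have logarithmic pluricanonical forms
(`Pool.Agent.Y192.KC.St_a1x`).
-/

set_option autoImplicit false

open MvPolynomial FF Pool.Agent.W602.GT Pool.Agent.W603.LV Pool.Agent.Y192.OG Pool.Agent.Y192.KC
  Pool.Agent.W619.PL Pool.Agent.Y547.KS

namespace Pool.Agent.Y658.KA

section

variable {n : ℕ} {L : Type} [Field L] [Algebra ℂ L]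

open Pool.Agent.Y153.KZ (yy yy_ne aeval_scale exists_form ep_unit)
open Pool.Agent.Y379.KG (ep_lm)

/-- orders of the values of the form `G` -/
theorem keyG {r ρ : ℕ} (X : ZCov n r) (P : Place ℂ L) (z : Fin n → Lˣ)
    (Γ : Submodule ℤ (Fin n → ℤ))
    (hcomp : ∀ g : Lau n, ep z g = 0 → ∀ q, ep z (comp Γ q g) = 0)
    (γ : Fin ρ → Fin n → ℤ) (F0' : Lau ρ) (a0 : Fin n → ℤ)
    (hr0 : ep z (laur X.G - lm γ F0' * AddMonoidAlgebra.single a0 1) = 0)
    (hF0 : ep z (lm γ F0') ≠ 0) (κ : ℤ) (hκ0 : κ ≤ 0) (hκi : ∀ i, κ ≤ P.ord (z i : L))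
    (hlamΓ : ∀ e ∈ Γ, ∑ i, P.ord (z i : L) * e i = 0)
    (hall : ∀ i, ∑ k, P.ord (z k : L) * γ i k = 0) :
    0 ≤ P.ord (ep z (lm γ F0')) ∧ (X.q : ℤ) * κ ≤ ∑ i, P.ord (z i : L) * a0 i := by
  set lam : Fin n → ℤ := fun i => P.ord (z i : L) with hlamdef
  have hxmo : ∀ e : Fin n → ℤ, P.ord ((xm z e : Lˣ) : L) = ∑ i, lam i * e i := ord_xm P z
  set H : ℤ := P.ord (ep z (lm γ F0')) with hH
  set Λ : ℤ := ∑ i, lam i * a0 i with hΛ
  obtain ⟨π, hπ0, hπ⟩ := P.surj
  let πu : Lˣ := Units.mk0 π hπ0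
  have hkey : ∀ M : ℕ, (X.q : ℤ) * (κ * M) ≤ H + Λ * M := by
    intro M
    set τ : Lˣ := πu ^ ((M : ℤ) - 1) with hτ
    have hτo : P.ord (τ : L) = M - 1 := by
      rw [hτ, ord_zpow]
      change _ * P.ord π = _
      rw [hπ, mul_one]
    have h1 := ep_ker Γ z lam hlamΓ hcomp τ _ hr0
    rw [map_sub, map_mul, ep_single, one_smul, sub_eq_zero] at h1
    have h2 : ep (tws z lam τ) (lm γ F0') = ep z (lm γ F0') := by
      rw [← ep_lm, ← ep_lm]
      have h20 : (fun i => xm (tws z lam τ) (γ i)) = fun i => xm z (γ i) := by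
        funext i
        rw [xm_tws, hall i, zpow_zero, mul_one]
      rw [h20]
    rw [h2, Pool.Agent.Y153.KZ.ep_laur, xm_tws, Units.val_mul] at h1
    have h3 : Ge P (X.q * (κ * M)) (aeval (yy (tws z lam τ)) X.G) := by
      apply ge_homog P X.hG
      intro i
      refine Fin.cases ?_ (fun i => ?_) i
      · have h4 : yy (tws z lam τ) 0 = 1 := rfl
        rw [h4]
        refine Ge.one.mono ?_
        exact mul_nonpos_of_nonpos_of_nonneg hκ0 (Int.natCast_nonneg M)
      · right
        have h4 : yy (tws z lam τ) i.succ = (z i : L) * ((τ ^ lam i : Lˣ) : L) := rfl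
        rw [h4, P.ord_mul (Units.ne_zero _) (Units.ne_zero _), ord_zpow, hτo]
        have h5 : P.ord (z i : L) = lam i := rfl
        rw [h5]
        have h6 : lam i + lam i * ((M : ℤ) - 1) = lam i * M := by ring
        rw [h6]
        exact mul_le_mul_of_nonneg_right (hκi i) (Int.natCast_nonneg M)
    rw [h1] at h3
    have h7 : ep z (lm γ F0') * (((xm z a0 : Lˣ) : L) *
        ((τ ^ (∑ i, lam i * a0 i) : Lˣ) : L)) ≠ 0 :=
      mul_ne_zero hF0 (mul_ne_zero (Units.ne_zero _) (Units.ne_zero _))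
    have h8 := h3.resolve_left h7
    rw [P.ord_mul hF0 (mul_ne_zero (Units.ne_zero _) (Units.ne_zero _)),
      P.ord_mul (Units.ne_zero _) (Units.ne_zero _), hxmo, ord_zpow, hτo] at h8
    have h9 : H + (Λ + Λ * ((M : ℤ) - 1)) = H + Λ * M := by ring
    rw [← h9]
    exact h8
  have hH0 : 0 ≤ H := by
    have := hkey 0
    simpa using this
  refine ⟨hH0, ?_⟩
  by_contra hcon
  push Not at hcon
  have h1 := hkey (H.toNat + 1)
  push_cast at h1
  rw [Int.toNat_of_nonneg hH0] at h1
  have h2 : (1 : ℤ) ≤ X.q * κ - Λ := by linarith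
  have h3 : (H + 1) * 1 ≤ (H + 1) * (X.q * κ - Λ) :=
    mul_le_mul_of_nonneg_left h2 (by linarith)
  nlinarith

theorem xm_mem (z : Fin n → Lˣ) (E : IntermediateField ℂ L) (hE : ∀ i, (z i : L) ∈ E)
    (m : Fin n → ℤ) : (xm z m : L) ∈ E := by
  unfold xm
  rw [Units.coe_prod]
  refine E.prod_mem fun i _ => ?_
  rw [Units.val_zpow_eq_zpow_val]
  exact zpow_mem (hE i) _

theorem ep_mem' (z : Fin n → Lˣ) (E : IntermediateField ℂ L) (hE : ∀ i, (z i : L) ∈ E)
    (g : Lau n) : ep z g ∈ E := by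
  rw [ep_expand]
  exact E.sum_mem fun m _ => E.smul_mem (xm_mem z E hE m)

omit [Algebra ℂ L] in
theorem xm_upow (z u : Fin n → Lˣ) (m : ℕ) (hzu : ∀ i, z i = u i ^ m) (e : Fin n → ℤ) :
    (xm z e : L) = (xm u e : L) ^ m := by
  have h1 : xm z e = xm u e ^ m := by
    unfold xm
    rw [← Finset.prod_pow]
    refine Finset.prod_congr rfl fun i _ => ?_
    rw [hzu, ← zpow_natCast, ← zpow_natCast, ← zpow_mul, ← zpow_mul, mul_comm]
  rw [h1, Units.val_pow_eq_pow_val]

/-- the monomials outside of `Γ` are a transcendence basis -/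
theorem tb {K' : Type} [Field K'] [Algebra ℂ K'] [Algebra K' L] [IsScalarTower ℂ K' L]
    (z u : Fin n → Lˣ) (m : ℕ) (hzu : ∀ i, z i = u i ^ m)
    {Γ : Submodule ℤ (Fin n → ℤ)} {b : ℕ} {bt : Fin b → Fin n → ℤ}
    {co : (Fin n → ℤ) →+ (Fin b → ℤ)} (hS : Splt Γ bt co)
    (hom : ∀ g ∈ RingHom.ker (ep z), ∀ q, comp Γ q g ∈ RingHom.ker (ep z))
    (hK1 : ∀ e ∈ Γ, ∃ y : K', algebraMap K' L y = (xm z e : L))
    (hK2 : ∀ y : K', algebraMap K' L y ∈ F0 z Γ)
    (halg : ∀ E : IntermediateField K' L, (∀ i, (z i : L) ∈ E) → ∀ y : L, IsAlgebraic E y) :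
    IsTranscendenceBasis K' (fun c => (xm u (bt c) : L)) := by
  obtain ⟨hind, hmon⟩ := Pool.Agent.Y809.OG.t_split n L z Γ b bt co hS hom
  let f : K' →+* F0 z Γ :=
    { toFun := fun y => ⟨algebraMap K' L y, hK2 y⟩
      map_one' := Subtype.ext (map_one _)
      map_zero' := Subtype.ext (map_zero _)
      map_add' := fun _ _ => Subtype.ext (map_add _ _ _)
      map_mul' := fun _ _ => Subtype.ext (map_mul _ _ _) }
  have hind' : AlgebraicIndependent K' (fun j => (xm z (bt j) : L)) :=
    AlgebraicIndependent.of_ringHom_of_comp_eq (f := f) (g := RingHom.id L) hind f.injective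
      (RingHom.ext fun y => rfl)
  set s : Fin b → L := fun c => (xm u (bt c) : L) with hs
  have hle : Cardinal.mk (Fin b) ≤ Algebra.trdeg K' L := hind'.cardinalMk_le_trdeg
  set E : IntermediateField K' L := IntermediateField.adjoin K' (Set.range s) with hE
  have hzE : ∀ i, (z i : L) ∈ E := by
    intro i
    obtain ⟨c, -, hc⟩ := hmon (Pi.single i 1)
    rw [Pool.Agent.Y153.KZ.xm_single] at hc
    rw [hc]
    refine E.mul_mem ?_ (E.prod_mem fun j _ => ?_)
    · have h1 : F0 z Γ ≤ (IsScalarTower.toAlgHom ℂ K' L).fieldRange := by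
        unfold F0
        rw [IntermediateField.adjoin_le_iff]
        rintro _ ⟨e, he, rfl⟩
        obtain ⟨y, hy⟩ := hK1 e he
        exact ⟨y, hy⟩
      obtain ⟨y, hy⟩ := h1 c.2
      have h2 : (c : L) = algebraMap K' L y := hy.symm
      rw [h2]
      exact E.algebraMap_mem y
    · refine zpow_mem ?_ _
      rw [xm_upow z u m hzu]
      exact pow_mem (show (xm u (bt j) : L) ∈ E from
        IntermediateField.subset_adjoin _ _ ⟨j, rfl⟩) m
  have hA : Algebra.IsAlgebraic (Algebra.adjoin K' (Set.range s)) L := by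
    refine ⟨fun y => ?_⟩
    open scoped IntermediateField.algebraAdjoinAdjoin in
    exact (IsFractionRing.isAlgebraic_iff (Algebra.adjoin K' (Set.range s))
      (IntermediateField.adjoin K' (Set.range s)) L).2 (halg E hzE y)
  exact Algebra.IsAlgebraic.isTranscendenceBasis_of_le_trdeg_of_finite K' s hle

end

open Pool.Agent.Y153.KZ (yy yy_ne aeval_scale exists_form ep_unit)
open Pool.Agent.Y379.KG (ep_lm)

/-- KA3 -/
theorem t_a1x : St_a1g → St_a1x := by
  intro hst n r X K _ _ x hI hgenK ρ p γ Γ F' B S a hγi hΓ hSat hgr hrel K' _ _ x' hx' hgen hLG hnl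
  have hEK : Algebra.EssFiniteType ℂ K' := by
    have h1 : (⊤ : IntermediateField ℂ K').FG := by
      rw [← hgen]
      exact IntermediateField.fg_adjoin_of_finite (Set.finite_range _)
    exact IntermediateField.fg_top_iff.mp h1
  obtain ⟨b, bt, co, co1, co2⟩ := Pool.Agent.Y833.OG.basis_exists Γ hSat
  have hSp : Splt Γ bt co := ⟨co1, co2⟩
  have hy0 : yy x' 0 = 1 := rfl
  have hys : ∀ i : Fin ρ, yy x' i.succ = (x' i : K') := fun i => rfl
  have hgy : IntermediateField.adjoin ℂ (Set.range fun i => yy x' i / yy x' 0) = ⊤ := by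
    rw [eq_top_iff, ← hgen, IntermediateField.adjoin_le_iff]
    rintro _ ⟨i, rfl⟩
    apply IntermediateField.subset_adjoin
    refine ⟨i.succ, ?_⟩
    show yy x' i.succ / yy x' 0 = _
    rw [hy0, div_one, hys]
  obtain ⟨μ, hμ⟩ := hst K' ρ p b (yy x')
    (fun P => ∃ j, ¬ ((X.eL j : ℤ) ∣ P.ord (ep x' (F' j)))) (yy_ne x')
    (by
      intro z
      have hz : z ∈ IntermediateField.adjoin ℂ (Set.range fun i => yy x' i / yy x' 0) := by
        rw [hgy]
        exact IntermediateField.mem_top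
      exact isAlgebraic_algebraMap
        (⟨z, hz⟩ : IntermediateField.adjoin ℂ (Set.range fun i => yy x' i / yy x' 0)))
    (by
      have e : (fun P : Place ℂ K' => (∃ i, P.ord (yy x' i) ≠ P.ord (yy x' 0)) ∨
          ∃ j, ¬ ((X.eL j : ℤ) ∣ P.ord (ep x' (F' j)))) =
          (fun P => (∃ i, P.ord (x' i : K') ≠ 0) ∨
            ∃ j, ¬ ((X.eL j : ℤ) ∣ P.ord (ep x' (F' j)))) := by
        funext P
        apply propext
        apply or_congr_left
        rw [hy0, P.ord_one]
        constructor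
        · rintro ⟨i, hi⟩
          revert hi
          refine Fin.cases ?_ (fun i => ?_) i
          · intro hi
            rw [hy0, P.ord_one] at hi
            exact absurd rfl hi
          · intro hi
            exact ⟨i, hi⟩
        · rintro ⟨i, hi⟩
          exact ⟨i.succ, hi⟩
      rw [e]
      exact hLG)
  refine ⟨μ, fun m hm hm0 hem L _ _ t w hZ d hd => ?_⟩
  -- the coordinates do not vanish
  have ht : ∀ i, t i ≠ 0 := by
    intro i h0
    have h1 := (hZ.van (MvPolynomial.X i) 1 (isHomogeneous_X ℂ i)).1 (by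
      rw [aeval_X, h0, zero_pow hm0.ne'])
    exact X.hX i h1
  have ht0 := ht 0
  let u : Fin n → Lˣ := fun i => Units.mk0 (t i.succ / t 0) (div_ne_zero (ht _) ht0)
  let z : Fin n → Lˣ := fun i => Units.mk0 ((t i.succ / t 0) ^ m)
    (pow_ne_zero _ (div_ne_zero (ht _) ht0))
  have hzu : ∀ i, z i = u i ^ m := fun i => Units.ext (by
    rw [Units.val_pow_eq_pow_val]
    rfl)
  have hz : yy z = fun i => (t i / t 0) ^ m := by
    funext i
    refine Fin.cases ?_ (fun i => ?_) i
    · show (1 : L) = _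
      rw [div_self ht0, one_pow]
    · rfl
  -- values of forms
  have hval : ∀ (f : MvPolynomial (Fin (n + 1)) ℂ) (k : ℕ), f.IsHomogeneous k →
      aeval (fun i => t i ^ m) f = (t 0 ^ m) ^ k * ep z (laur f) := by
    intro f k hf
    rw [Pool.Agent.Y153.KZ.ep_laur, hz, ← aeval_scale hf]
    congr 2
    funext i
    rw [div_pow, mul_div_cancel₀ _ (pow_ne_zero m ht0)]
  have hker : ∀ g : Lau n, ep x g = 0 ↔ ep z g = 0 := by
    intro g
    obtain ⟨v, D, U, hu, hU, e⟩ := exists_form g
    have h1 : ep x g = 0 ↔ ep x (laur U) = 0 := by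
      rw [← e, map_mul, mul_eq_zero]
      exact ⟨Or.inl, fun h => h.resolve_right (ep_unit x hu)⟩
    have h2 : ep z g = 0 ↔ ep z (laur U) = 0 := by
      rw [← e, map_mul, mul_eq_zero]
      exact ⟨Or.inl, fun h => h.resolve_right (ep_unit z hu)⟩
    rw [h1, h2, hI U D hU, ← hZ.van U D hU, hval U D hU, mul_eq_zero]
    exact ⟨fun h => h.resolve_left (pow_ne_zero _ (pow_ne_zero _ ht0)), Or.inr⟩
  let z' : Fin ρ → Lˣ := fun i => xm z (γ i)
  have hz' : ∀ g : Lau ρ, ep z' g = ep z (lm γ g) := fun g => ep_lm z γ g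
  obtain ⟨σ, hσ⟩ := Pool.Agent.Y153.KZ.exists_emb x' z' hgen (fun g => by rw [hx', hz', hker])
  have hσy : ∀ i : Fin ρ, σ (x' i : K') = (z' i : L) := by
    intro i
    have h1 : ∀ {F : Type} [Field F] [Algebra ℂ F] (u : Fin ρ → Fˣ),
        ep u (AddMonoidAlgebra.single (Pi.single i 1) 1) = (u i : F) := by
      intro F _ _ u
      rw [ep_single, Pool.Agent.Y153.KZ.xm_single, one_smul]
    rw [← h1 x', hσ, h1 z']
  have hwt : ∀ j, X.wt m j * X.e j = m * X.d j := fun j =>
    Nat.div_mul_cancel ((hem j).mul_right _)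
  have hzF : ∀ j, (w j / t 0 ^ X.wt m j) ^ X.e j = ep z (laur (X.F j)) := by
    intro j
    rw [div_pow, hZ.eqn j, hval _ _ (X.hF j), ← pow_mul, ← pow_mul, hwt, mul_comm,
      mul_div_assoc, div_self (pow_ne_zero _ ht0), mul_one]
  -- the relations
  have hrelz : ∀ j, ep z (B j) ≠ 0 ∧ ep z (S j) ≠ 0 ∧ ep z (lm γ (F' j)) ≠ 0 ∧
      ep z (B j ^ X.eL j * X.FL j -
        lm γ (F' j) * AddMonoidAlgebra.single (a j) 1 * S j ^ X.eL j) = 0 := by
    intro j
    obtain ⟨h1, h2, h3, h4⟩ := hrel j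
    refine ⟨fun h => h1 ((hker _).2 h), fun h => h2 ((hker _).2 h),
      fun h => h3 ((hker _).2 h), (hker _).1 ?_⟩
    rw [map_sub, h4, sub_self]
  have hcomp : ∀ g : Lau n, ep z g = 0 → ∀ q, ep z (comp Γ q g) = 0 := by
    intro g hg q
    rw [← hker] at hg ⊢
    exact hgr g hg q
  let _ : Algebra K' L := σ.toRingHom.toAlgebra
  have hST : IsScalarTower ℂ K' L := IsScalarTower.of_algebraMap_eq' (σ.comp_algebraMap).symm
  have hmap : ∀ y : K', algebraMap K' L y = σ y := fun y => rfl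
  have hEL : Algebra.EssFiniteType ℂ L := by
    have h1 : (⊤ : IntermediateField ℂ L).FG := by
      rw [← hZ.gen]
      exact IntermediateField.fg_adjoin_of_finite ((Set.finite_range _).union (Set.finite_range _))
    exact IntermediateField.fg_top_iff.mp h1
  -- the transcendence basis
  have htb : IsTranscendenceBasis K' (fun c => (xm u (bt c) : L)) := by
    refine tb z u m hzu hSp hcomp ?_ ?_ ?_
    · intro e he
      obtain ⟨c, rfl⟩ := (hΓ e).1 he
      refine ⟨(xm x' c : K'), ?_⟩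
      rw [hmap]
      have h1 := hσ (AddMonoidAlgebra.single c 1)
      rw [ep_single, ep_single, one_smul, one_smul] at h1
      rw [h1, Pool.Agent.Y379.KG.xm_sum]
      unfold xm
      rw [Units.coe_prod, Units.coe_prod]
      refine Finset.prod_congr rfl fun i _ => ?_
      have h2 := Pool.Agent.Y379.KG.xm_smul z (c i) (γ i)
      rw [show (∏ i_1, z i_1 ^ (c i • γ i) i_1 : Lˣ) = xm z (c i • γ i) from rfl, h2]
    · intro y
      have h1 : y ∈ IntermediateField.adjoin ℂ (Set.range fun i => (x' i : K')) := by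
        rw [hgen]
        exact IntermediateField.mem_top
      have h2 : IntermediateField.adjoin ℂ (Set.range fun i => (x' i : K')) ≤
          (F0 z Γ).comap σ := by
        rw [IntermediateField.adjoin_le_iff]
        rintro _ ⟨i, rfl⟩
        show σ (x' i : K') ∈ F0 z Γ
        rw [hσy]
        refine IntermediateField.subset_adjoin _ _ ⟨γ i, (hΓ _).2 ⟨Pi.single i 1, ?_⟩, rfl⟩
        rw [Finset.sum_eq_single i]
        · rw [Pi.single_eq_same, one_smul]
        · intro j _ hj
          rw [Pi.single_eq_of_ne hj, zero_smul]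
        · intro h
          exact absurd (Finset.mem_univ i) h
      exact h2 h1
    · intro E hE
      have h1 : ∀ i, IsAlgebraic E (t i / t 0) := by
        intro i
        refine Fin.cases ?_ (fun i => ?_) i
        · rw [div_self ht0]
          exact isAlgebraic_one
        · have h2 : IsAlgebraic E ((t i.succ / t 0) ^ m) := by
            have h3 : (t i.succ / t 0) ^ m = algebraMap E L ⟨(z i : L), hE i⟩ := rfl
            rw [h3]
            exact isAlgebraic_algebraMap _
          exact h2.of_pow hm0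
      have h3 : ∀ j, IsAlgebraic E (w j / t 0 ^ X.wt m j) := by
        intro j
        have h4 : IsAlgebraic E ((w j / t 0 ^ X.wt m j) ^ X.e j) := by
          rw [hzF]
          have h5 : ep z (laur (X.F j)) ∈ E.restrictScalars ℂ := ep_mem' z _ hE _
          exact isAlgebraic_algebraMap (⟨_, h5⟩ : E)
        exact h4.of_pow (X.he j)
      have hCE : IsScalarTower ℂ E L := IsScalarTower.of_algebraMap_eq fun _ => rfl
      have hsub : (⊤ : IntermediateField ℂ L) ≤ (algebraicClosure E L).restrictScalars ℂ := by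
        rw [← hZ.gen]
        apply IntermediateField.adjoin_le_iff.mpr
        rintro y (⟨i, rfl⟩ | ⟨j, rfl⟩)
        · exact mem_algebraicClosure_iff.mpr (h1 i)
        · exact mem_algebraicClosure_iff.mpr (h3 j)
      intro y
      exact mem_algebraicClosure_iff.mp (hsub (IntermediateField.mem_top (x := y)))
  have hdpb : d = p + b := by
    have h1 := trdeg_add_eq ℂ K' (A := L)
    rw [← htb.cardinalMk_eq_trdeg, hLG.1, hd, Cardinal.mk_fin] at h1
    exact_mod_cast h1.symm
  subst hdpb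
  refine hμ L (fun c => (xm u (bt c) : L)) (OffG X.toCov m t) hd (fun c => Units.ne_zero _) htb.1
    fun P hP => ?_
  unfold OffG at hP
  push Not at hP
  obtain ⟨c, hc1, hc2, hc3⟩ := hP
  set lam : Fin n → ℤ := fun i => P.ord (z i : L) with hlamdef
  have hlam : ∀ i, lam i = m * (P.ord (t i.succ) - P.ord (t 0)) := by
    intro i
    have h1 : P.ord (z i : L) = P.ord ((t i.succ / t 0) ^ m) := rfl
    rw [hlamdef]
    change P.ord (z i : L) = _
    rw [h1, P.ord_pow, P.ord_div (ht _) ht0]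
  have hxmo : ∀ e : Fin n → ℤ, P.ord ((xm z e : Lˣ) : L) = ∑ i, lam i * e i := ord_xm P z
  have hmul' : ∀ e : Fin n → ℤ, ∑ i, lam i * e i =
      m * Pool.Agent.Y658.KZ.wt (tw fun i => P.ord (t i)) e := by
    intro e
    unfold Pool.Agent.Y658.KZ.wt tw
    rw [Finset.mul_sum]
    refine Finset.sum_congr rfl fun i _ => ?_
    rw [hlam]
    ring
  have hmul : ∀ e : Fin n → ℤ, ∃ b : ℤ, ∑ i, lam i * e i = m * b := fun e => ⟨_, hmul' e⟩
  have hordy : ∀ i : Fin ρ, P.ord (algebraMap K' L (yy x' i.succ)) = ∑ k, lam k * γ i k := by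
    intro i
    rw [hmap, hys, hσy]
    exact hxmo (γ i)
  have hordy0 : P.ord (algebraMap K' L (yy x' 0)) = 0 := by rw [hy0, map_one, P.ord_one]
  by_cases hall : ∀ i : Fin ρ, ∑ k, lam k * γ i k = 0
  · left
    have hlamΓ : ∀ e ∈ Γ, ∑ i, lam i * e i = 0 := by
      intro e he
      obtain ⟨b, rfl⟩ := (hΓ e).1 he
      have h1 : ∀ i, lam i * (∑ l, b l • γ l) i = ∑ l, b l * (lam i * γ l i) := by
        intro i
        rw [Finset.sum_apply, Finset.mul_sum]
        refine Finset.sum_congr rfl fun l _ => ?_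
        rw [Pi.smul_apply, smul_eq_mul]
        ring
      rw [Finset.sum_congr rfl fun i _ => h1 i, Finset.sum_comm]
      refine Finset.sum_eq_zero fun l _ => ?_
      rw [← Finset.mul_sum, hall l, mul_zero]
    set κ : ℤ := m * (c - P.ord (t 0)) with hκ
    have hm' : (0 : ℤ) ≤ m := Int.natCast_nonneg m
    have hκ0 : κ ≤ 0 := mul_nonpos_of_nonneg_of_nonpos hm' (by linarith [hc1 0])
    have hκi : ∀ i, κ ≤ lam i := by
      intro i
      rw [hlam]
      exact mul_le_mul_of_nonneg_left (by linarith [hc1 i.succ]) hm'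
    have hmain : P.ord (ep z (lm γ (F' 0))) = 0 ∧ ∑ i, lam i * a 0 i = X.q * κ := by
      obtain ⟨hB0, hS0, hF0, hr0⟩ := hrelz 0
      have he0 : X.eL 0 = 0 := rfl
      have hFL0 : X.FL 0 = laur X.G := rfl
      rw [he0, pow_zero, pow_zero, one_mul, mul_one, hFL0] at hr0
      obtain ⟨hH0, hΛκ⟩ := keyG X P z Γ hcomp γ (F' 0) (a 0) hr0 hF0 κ hκ0 hκi hlamΓ hall
      have hr1 := hr0
      rw [map_sub, map_mul, ep_single, one_smul, sub_eq_zero] at hr1
      have hup : P.ord (ep z (lm γ (F' 0))) + ∑ i, lam i * a 0 i ≤ X.q * κ := by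
        have hv := hval _ _ X.hG
        rw [hr1] at hv
        rw [hv, P.ord_mul (pow_ne_zero _ (pow_ne_zero _ ht0))
          (mul_ne_zero hF0 (Units.ne_zero _)), P.ord_mul hF0 (Units.ne_zero _), hxmo, P.ord_pow,
          P.ord_pow] at hc3
        rw [hκ]
        have h1 : (X.q : ℤ) * (m * (c - P.ord (t 0))) = m * X.q * c - X.q * (m * P.ord (t 0)) := by
          ring
        rw [h1]
        linarith
      constructor
      · linarith
      · linarith
    have hmz : (m : ℤ) ≠ 0 := by exact_mod_cast hm0.ne'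
    have heq : ∀ i, P.ord (t i) = P.ord (t 0) := by
      by_contra hne
      push Not at hne
      obtain ⟨i1, hi1⟩ := hne
      refine hnl (zlim X x hI γ Γ F' B S a hΓ hgr hrel (fun i => P.ord (t i)) ⟨i1, 0, hi1⟩ ?_ c hc1
        hc2 ?_)
      · intro e he
        have h1 := hmul' e
        rw [hlamΓ e he] at h1
        exact (mul_eq_zero.1 h1.symm).resolve_left hmz
      · have h1 := hmul' (a 0)
        rw [hmain.2, hκ] at h1
        apply mul_left_cancel₀ hmz
        rw [← h1]
        ring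
    refine ⟨fun i => ?_, ?_, ?_⟩
    · refine Fin.cases rfl (fun i => ?_) i
      rw [hordy, hordy0, hall]
    · intro P0 s hs hB hs1
      obtain ⟨j, hj⟩ := hB
      apply hj
      have hPj : P0.ord (ep x' (F' j)) = P.ord (ep z (lm γ (F' j))) := by
        have h1 := hs (ep x' (F' j))
        rw [hs1, Nat.cast_one, one_mul, hmap, hσ, hz'] at h1
        exact h1.symm
      rw [hPj]
      obtain ⟨hB0, hS0, hF0, hr0⟩ := hrelz j
      have hr1 := hr0
      rw [map_sub, map_mul, map_mul, map_mul, map_pow, map_pow, ep_single, one_smul,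
        sub_eq_zero] at hr1
      revert hj hPj hB0 hS0 hF0 hr0 hr1
      refine Fin.cases ?_ (fun j => ?_) j
      · intro _ _ hB0 hS0 hF0 hr0 hr1
        show ((0 : ℕ) : ℤ) ∣ P.ord (ep z (lm γ (F' 0)))
        rw [hmain.1]
        exact dvd_zero _
      · intro _ _ hB0 hS0 hF0 hr0 hr1
        show ((X.e j : ℕ) : ℤ) ∣ P.ord (ep z (lm γ (F' j.succ)))
        have heL : X.eL j.succ = X.e j := rfl
        have hFL : X.FL j.succ = laur (X.F j) := rfl
        rw [heL, hFL, ← hzF] at hr1
        have hw0 : (w j / t 0 ^ X.wt m j) ^ X.e j ≠ 0 := by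
          intro h0
          rw [h0, mul_zero] at hr1
          exact mul_ne_zero (mul_ne_zero hF0 (Units.ne_zero _)) (pow_ne_zero _ hS0) hr1.symm
        have h1 := congrArg P.ord hr1
        rw [P.ord_mul (pow_ne_zero _ hB0) hw0, P.ord_mul (mul_ne_zero hF0 (Units.ne_zero _))
          (pow_ne_zero _ hS0), P.ord_mul hF0 (Units.ne_zero _), P.ord_pow, P.ord_pow, P.ord_pow,
          hxmo] at h1
        obtain ⟨b, hb⟩ := hmul (a j.succ)
        rw [hb] at h1
        obtain ⟨b', hb'⟩ : ((X.e j : ℕ) : ℤ) ∣ (m : ℤ) := by exact_mod_cast hem j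
        refine ⟨P.ord (ep z (B j.succ)) + P.ord (w j / t 0 ^ X.wt m j) - b' * b -
          P.ord (ep z (S j.succ)), ?_⟩
        rw [hb'] at h1
        linear_combination -h1
    · intro c'
      show P.ord ((xm u (bt c') : Lˣ) : L) = 0
      rw [ord_xm]
      refine Finset.sum_eq_zero fun i _ => ?_
      have h1 : P.ord (u i : L) = P.ord (t i.succ / t 0) := rfl
      rw [h1, P.ord_div (ht _) ht0, heq, sub_self, zero_mul]
  · right
    push Not at hall
    obtain ⟨i, hi⟩ := hall
    obtain ⟨b, hb⟩ := hmul (γ i)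
    have hb0 : b ≠ 0 := by
      rintro rfl
      rw [mul_zero] at hb
      exact hi hb
    have h3 : (μ : ℤ) ≤ m := by exact_mod_cast hm
    have h4 : (0 : ℤ) ≤ m := Int.natCast_nonneg m
    rcases lt_or_gt_of_ne hb0 with h5 | h5
    · refine ⟨i.succ, 0, ?_⟩
      rw [hordy, hordy0, hb]
      have h6 : (m : ℤ) * b ≤ m * (-1) := mul_le_mul_of_nonneg_left (by omega) h4
      linarith
    · refine ⟨0, i.succ, ?_⟩
      rw [hordy, hordy0, hb]
      have h6 : (m : ℤ) * 1 ≤ m * b := mul_le_mul_of_nonneg_left (by omega) h4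
      linarith

end Pool.Agent.Y658.KA
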