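import Pool.Agent.Y192.KC.AStm
import Pool.Agent.Y658.KZ.Zred
import Pool.Agent.Y192.KC.ZMain
import Pool.Agent.Y379.KG.Desc

/-!
One-parameter groups with limits: from Laurent polynomials to forms.
-/

set_option autoImplicit false

namespace Pool.Agent.Y658.KA

open MvPolynomial FF Pool.Agent.Y192.OG Pool.Agent.Y192.KC Pool.Agent.Y658.KZ

variable {n r : ℕ}

/-- the weights on the torus -/
def tw (l : Fin (n + 1) → ℤ) : Fin n → ℤ := fun i => l i.succ - l 0

theorem wc_conv (l : Fin (n + 1) → ℤ) (c : Fin (n + 1) →₀ ℕ) :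
    wc l c = wc (lc (tw l)) c + l 0 * (c.degree : ℤ) := by
  have h1 : (c.degree : ℤ) = (c 0 : ℤ) + ∑ i : Fin n, (c i.succ : ℤ) := by
    rw [Finsupp.degree_eq_sum, Fin.sum_univ_succ]
    push_cast
    rfl
  unfold wc
  rw [Fin.sum_univ_succ, Fin.sum_univ_succ, h1]
  have h2 : ∀ i : Fin n, lc (tw l) i.succ = l i.succ - l 0 := fun i => rfl
  have h3 : lc (tw l) 0 = 0 := rfl
  rw [h3]
  simp only [h2, sub_mul, Finset.sum_sub_distrib, ← Finset.mul_sum]
  ring

theorem wp_conv (l : Fin (n + 1) → ℤ) (k : ℤ) {f : MvPolynomial (Fin (n + 1)) ℂ} {d : ℕ}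
    (hf : f.IsHomogeneous d) : wp l k f = wp (lc (tw l)) (k - l 0 * d) f := by
  ext c
  rw [wp_coeff, wp_coeff]
  by_cases h0 : coeff c f = 0
  · rw [h0]
    simp
  · have h1 : c.degree = d := by
      by_contra h3
      exact h0 (hf.coeff_eq_zero h3)
    have h2 := wc_conv l c
    rw [h1] at h2
    by_cases h3 : wc l c = k
    · rw [if_pos h3, if_pos (by omega)]
    · rw [if_neg h3, if_neg (by omega)]

theorem hom_conv (l : Fin (n + 1) → ℤ) {f : MvPolynomial (Fin (n + 1)) ℂ} {d : ℕ}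
    (hf : f.IsHomogeneous d) (h : Hom (lc (tw l)) f) : Hom l f := by
  obtain ⟨k, hk⟩ := h
  refine ⟨k + l 0 * d, fun c hc => ?_⟩
  have h1 : c.degree = d := by
    by_contra h3
    exact (mem_support_iff.mp hc) (hf.coeff_eq_zero h3)
  have h2 := wc_conv l c
  rw [h1] at h2
  have h3 : wc (lc (tw l)) c = k := hk c hc
  rw [h3] at h2
  exact h2

/-- the weights of the exponents of `lm γ g` -/
theorem lm_wt {ρ : ℕ} (γ : Fin ρ → Fin n → ℤ) (lam : Fin n → ℤ)
    (h : ∀ i, wt lam (γ i) = 0) (g : Lau ρ) :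
    ∀ m ∈ (lm γ g).coeff.support, wt lam m = 0 := by
  classical
  have key : ∀ k, k ≠ 0 → wpart lam k (lm γ g) = 0 := by
    intro k hk
    induction g using AddMonoidAlgebra.induction_linear with
    | zero => rw [map_zero, wpart_zero]
    | add f g hf hg => rw [map_add, wpart_add, hf, hg, add_zero]
    | single a c =>
      rw [Pool.Agent.Y379.KG.lm_single, wpart_single, if_neg]
      rw [Pool.Agent.Y379.KG.LL_apply]
      intro h1
      apply hk
      rw [← h1]
      unfold wt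
      have h2 : ∀ i, lam i * (∑ j, a j • γ j) i = ∑ j, a j * (lam i * γ j i) := by
        intro i
        rw [Finset.sum_apply, Finset.mul_sum]
        refine Finset.sum_congr rfl fun j _ => ?_
        rw [Pi.smul_apply, smul_eq_mul]
        ring
      rw [Finset.sum_congr rfl fun i _ => h2 i, Finset.sum_comm]
      refine Finset.sum_eq_zero fun j _ => ?_
      rw [← Finset.mul_sum]
      have h3 : ∑ i, lam i * γ j i = 0 := h j
      rw [h3, mul_zero]
  intro m hm
  by_contra hne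
  have h1 := key (wt lam m) hne
  have h2 := wpart_coeff' lam (wt lam m) (lm γ g) m
  rw [h1, if_pos rfl] at h2
  rw [Finsupp.mem_support_iff] at hm
  exact hm (by rw [← h2]; simp)

/-- the one-parameter group with limits -/
theorem zlim (X : ZCov n r) {K : Type} [Field K] [Algebra ℂ K] (x : Fin n → Kˣ)
    (hv : ∀ (f : MvPolynomial (Fin (n + 1)) ℂ) (k : ℕ), f.IsHomogeneous k →
      (ep x (laur f) = 0 ↔ f ∈ X.I))
    {ρ : ℕ} (γ : Fin ρ → Fin n → ℤ) (Γ : Submodule ℤ (Fin n → ℤ)) (F' : Fin (r + 1) → Lau ρ)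
    (B S : Fin (r + 1) → Lau n) (a : Fin (r + 1) → Fin n → ℤ)
    (hΓ : ∀ m, m ∈ Γ ↔ ∃ a : Fin ρ → ℤ, m = ∑ i, a i • γ i)
    (hgr : ∀ g ∈ RingHom.ker (ep x), ∀ q, comp Γ q g ∈ RingHom.ker (ep x))
    (hrel : ∀ j, ep x (B j) ≠ 0 ∧ ep x (S j) ≠ 0 ∧ ep x (lm γ (F' j)) ≠ 0 ∧
        ep x (B j ^ X.eL j * X.FL j) =
          ep x (lm γ (F' j) * AddMonoidAlgebra.single (a j) 1 * S j ^ X.eL j))
    (l : Fin (n + 1) → ℤ) (hne : ∃ i j, l i ≠ l j)
    (hl : ∀ m ∈ Γ, wt (tw l) m = 0)
    (c : ℤ) (hc1 : ∀ i, c ≤ l i) (hc2 : ∃ i, l i = c)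
    (hG : wt (tw l) (a 0) = X.q * (c - l 0)) : ZLim X := by
  classical
  have hker : ∀ g ∈ RingHom.ker (ep x), ∀ k, wpart (tw l) k g ∈ RingHom.ker (ep x) :=
    wpart_mem hgr hl
  have hγ : ∀ i, wt (tw l) (γ i) = 0 := by
    intro i
    apply hl
    refine (hΓ _).2 ⟨Pi.single i 1, ?_⟩
    rw [Finset.sum_eq_single i]
    · rw [Pi.single_eq_same, one_smul]
    · intro j _ hj
      rw [Pi.single_eq_of_ne hj, zero_smul]
    · intro h
      exact absurd (Finset.mem_univ i) h
  have hxm : ∀ c : Fin (n + 1) →₀ ℕ, ep x (laur (monomial c (1 : ℂ))) ≠ 0 := by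
    intro c
    rw [laur_monomial, ep_single, one_smul]
    exact Units.ne_zero _
  have hhom : ∀ (f : MvPolynomial (Fin (n + 1)) ℂ) (d : ℕ), f.IsHomogeneous d → f ∈ X.I →
      ∀ k, wp (lc (tw l)) k f ∈ X.I := by
    intro f d hf hfI k
    rw [← hv _ d (wp_hom _ _ hf), laur_wp]
    exact hker _ ((hv f d hf).mpr hfI) k
  refine ⟨l, hne, ?_, ⟨c, hc1, hc2, ?_⟩, ?_⟩
  · intro f hf k
    rw [← sum_homogeneousComponent f, wp_sum]
    refine X.I.sum_mem fun d _ => ?_
    rw [wp_conv l k (homogeneousComponent_isHomogeneous d f)]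
    exact hhom _ d (homogeneousComponent_isHomogeneous d f) (X.hom f hf d) _
  · obtain ⟨h3, h4, h5, h6⟩ := hrel 0
    have hFL : X.FL 0 = laur X.G := rfl
    have heL : X.eL 0 = 0 := rfl
    rw [hFL, heL, pow_zero, pow_zero, one_mul, mul_one] at h6
    rw [wp_conv l _ X.hG]
    have hkk : (X.q : ℤ) * c - l 0 * X.q = wt (tw l) (a 0) := by
      rw [hG]
      ring
    rw [hkk]
    rw [← hv _ X.q (X.hG.sub (wp_hom _ _ X.hG)), laur_sub, laur_wp]
    refine sub_wpart_mem (RingHom.ker (ep x)) (tw l) _ _ fun k hk => ?_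
    have h7 : laur X.G - lm γ (F' 0) * AddMonoidAlgebra.single (a 0) 1 ∈ RingHom.ker (ep x) := by
      rw [RingHom.mem_ker, map_sub, h6, sub_self]
    have h8 := hker _ h7 k
    rw [wpart_sub, wpart_mul (tw l) k 0 (lm γ (F' 0)) _ (lm_wt γ (tw l) hγ _), wpart_single,
      sub_zero, if_neg (fun h => hk h.symm), mul_zero, sub_zero] at h8
    exact h8
  · intro j
    obtain ⟨h3, h4, h5, h6⟩ := hrel j.succ
    have hFL : X.FL j.succ = laur (X.F j) := rfl
    have heL : X.eL j.succ = X.e j := rfl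
    rw [hFL, heL] at h6
    set e := X.e j with he
    obtain ⟨m1, d1, U1, hU1, e1⟩ := Pool.Agent.Y768.KC.exists_hom (B j.succ)
    obtain ⟨m2, d2, U2, hU2, e2⟩ := Pool.Agent.Y768.KC.exists_hom
      (lm γ (F' j.succ) * AddMonoidAlgebra.single (a j.succ) 1)
    obtain ⟨m3, d3, U3, hU3, e3⟩ := Pool.Agent.Y768.KC.exists_hom (S j.succ)
    have e1' : laur U1 = B j.succ * laur (monomial m1 1) := e1.symm
    have e2' : laur U2 = lm γ (F' j.succ) * AddMonoidAlgebra.single (a j.succ) 1 *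
        laur (monomial m2 1) := e2.symm
    have e3' : laur U3 = S j.succ * laur (monomial m3 1) := e3.symm
    have hX0 : ∀ k : ℕ, laur ((MvPolynomial.X 0 : MvPolynomial (Fin (n + 1)) ℂ) ^ k) = 1 := by
      intro k
      rw [laur_eq, Pool.Agent.Y768.KC.laurL_pow, Pool.Agent.Y768.KC.laurL_X0, one_pow]
    set p1 : ℕ := m1.degree * e + d2 + d3 * e with hp1
    set p2 : ℕ := m2.degree + m3.degree * e + d1 * e + X.d j with hp2
    set D' : MvPolynomial (Fin (n + 1)) ℂ :=
      monomial m2 1 * monomial m3 1 ^ e * MvPolynomial.X 0 ^ p1 with hD'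
    set H' : MvPolynomial (Fin (n + 1)) ℂ := monomial m1 1 ^ e * U2 * MvPolynomial.X 0 ^ p2 with hH'
    have hmon : ∀ c : Fin (n + 1) →₀ ℕ,
        (monomial c (1 : ℂ) : MvPolynomial (Fin (n + 1)) ℂ).IsHomogeneous c.degree := fun c =>
      isHomogeneous_monomial _ rfl
    have hD'h : D'.IsHomogeneous (m2.degree + m3.degree * e + p1) :=
      ((hmon m2).mul ((hmon m3).pow e)).mul (isHomogeneous_X_pow _ _)
    have hH'h : H'.IsHomogeneous (m1.degree * e + d2 + p2) :=
      (((hmon m1).pow e).mul hU2).mul (isHomogeneous_X_pow _ _)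
    have hlD : laur D' = laur (monomial m2 1) * laur (monomial m3 1) ^ e := by
      rw [hD', laur_mul, laur_mul, laur_pow, hX0, mul_one]
    have hlH : laur H' = laur (monomial m1 1) ^ e * (lm γ (F' j.succ) *
        AddMonoidAlgebra.single (a j.succ) 1 * laur (monomial m2 1)) := by
      rw [hH', laur_mul, laur_mul, hX0, mul_one, laur_pow, e2']
    have hDI : D' ∉ X.I := by
      intro h
      have h7 := (hv _ _ hD'h).mpr h
      rw [hlD, map_mul, map_pow] at h7
      exact mul_ne_zero (hxm m2) (pow_ne_zero _ (hxm m3)) h7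
    have hsing : ep x (AddMonoidAlgebra.single (a j.succ) 1) ≠ 0 := by
      rw [ep_single, one_smul]
      exact Units.ne_zero _
    have hHI : H' ∉ X.I := by
      intro h
      have h7 := (hv _ _ hH'h).mpr h
      rw [hlH, map_mul, map_mul, map_mul, map_pow] at h7
      exact mul_ne_zero (pow_ne_zero _ (hxm m1)) (mul_ne_zero (mul_ne_zero h5 hsing) (hxm m2)) h7
    have hBI : U1 ∉ X.I := by
      intro h
      have h7 := (hv _ _ hU1).mpr h
      rw [e1', map_mul] at h7
      exact mul_ne_zero h3 (hxm m1) h7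
    have hSI : U3 ∉ X.I := by
      intro h
      have h7 := (hv _ _ hU3).mpr h
      rw [e3', map_mul] at h7
      exact mul_ne_zero h4 (hxm m3) h7
    refine ⟨D', H', U1, U3, hDI, hHI, hBI, hSI, ?_, ?_, ⟨_, hD'h⟩, ⟨_, hH'h⟩, ⟨_, hU1⟩,
      ⟨_, hU3⟩, ?_⟩
    · have hmon3 : Hom l ((monomial m3 (1 : ℂ)) ^ e) := by
        rw [monomial_pow]
        exact hom_monomial _ _ _
      rw [hD', X0_pow]
      exact hom_mul (hom_mul (hom_monomial _ _ _) hmon3) (hom_monomial _ _ _)
    · have hU : Hom l U2 := by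
        apply hom_conv l hU2
        refine hom_of_laur hU2
          ((0 + wt (tw l) (a j.succ)) + wt (tw l) (Pool.Agent.Y768.KC.sh m2)) ?_
        rw [e2', laur_monomial]
        exact supp_mul_single (supp_mul_single (lm_wt γ (tw l) hγ _) _ _) _ _
      have hmon1 : Hom l ((monomial m1 (1 : ℂ)) ^ e) := by
        rw [monomial_pow]
        exact hom_monomial _ _ _
      rw [hH', X0_pow]
      exact hom_mul (hom_mul hmon1 hU) (hom_monomial _ _ _)
    · have hdeg1 : (D' * U1 ^ e * X.F j).IsHomogeneous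
          (m2.degree + m3.degree * e + p1 + d1 * e + X.d j) :=
        (hD'h.mul (hU1.pow e)).mul (X.hF j)
      have hdeg2 : (H' * U3 ^ e).IsHomogeneous
          (m2.degree + m3.degree * e + p1 + d1 * e + X.d j) := by
        have := hH'h.mul (hU3.pow e)
        have hh : m1.degree * e + d2 + p2 + d3 * e =
            m2.degree + m3.degree * e + p1 + d1 * e + X.d j := by
          rw [hp1, hp2]
          ring
        rwa [hh] at this
      rw [← hv _ _ (hdeg1.sub hdeg2), laur_sub, laur_mul _ (X.F j), laur_mul D' (U1 ^ e),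
        laur_mul H' (U3 ^ e), laur_pow U3 e, laur_pow U1 e, hlD, hlH, e3', e1']
      simp only [map_sub, map_mul, map_pow] at h6 ⊢
      rw [mul_pow, mul_pow]
      linear_combination (ep x (laur (monomial m1 1)) ^ e * ep x (laur (monomial m2 1)) *
        ep x (laur (monomial m3 1)) ^ e) * h6

end Pool.Agent.Y658.KA
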